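import Pool.Agent.Lib.T3X.B_MART

/-! The martingale bound in dimension three, with no condition on the law. -/

namespace Pool.Agent.Lib.T3X

open MeasureTheory ProbabilityTheory Filter Topology Function Finset SimpleGraph Pool.Agent.Lib.V3
open Pool.Agent.Lib.V5
open Pool.Agent.Lib.T3X.MART
open scoped NNReal ENNReal

namespace M0

/-- the set does not depend on the weight of `e` -/
def Fr (X : Set Cfg) (e : Sym2 V) : Prop := ∀ τ t, update τ e t ∈ X ↔ τ ∈ X

/-- the centred indicator of a light weight -/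
noncomputable def et (p : Par) (lo t : ℝ≥0) : ℝ :=
  p.F.real (Set.Iic lo) - (Set.Iic lo).indicator (fun _ => 1) t

/-- all weights raised by `1 / (n + 1)` -/
noncomputable def rs (n : ℕ) (τ : Cfg) : Cfg := fun e => τ e + 1 / ((n : ℝ≥0) + 1)

lemma up_meas (n : ℕ) : Measurable (rs n) :=
  measurable_pi_lambda _ fun e => (measurable_pi_apply e).add_const _

lemma le_up (n : ℕ) (τ : Cfg) (e : Sym2 V) : τ e ≤ rs n τ e := le_self_add

lemma up_pos (n : ℕ) (τ : Cfg) (e : Sym2 V) : 0 < rs n τ e :=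
  lt_of_lt_of_le (by positivity) le_add_self

lemma up_upd (n : ℕ) (τ : Cfg) (e : Sym2 V) (t : ℝ≥0) {e' : Sym2 V} (he : e' ≠ e) :
    rs n (update τ e t) e' = rs n τ e' := by simp only [rs, update_of_ne he]

lemma up_anti {n k : ℕ} (h : n ≤ k) (τ : Cfg) (e : Sym2 V) : rs k τ e ≤ rs n τ e := by
  have h1 : (n : ℝ≥0) ≤ k := by exact_mod_cast h
  exact add_le_add le_rfl (one_div_le_one_div_of_le (by positivity) (add_le_add h1 le_rfl))

lemma SW_up (n : ℕ) (τ : Cfg) (l : List (Sym2 V)) :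
    SW (rs n τ) l = SW τ l + l.length * (1 / ((n : ℝ) + 1)) := by
  induction l with
  | nil => simp [SW]
  | cons b l ih =>
    rw [SW_cons, SW_cons, ih, List.length_cons]
    simp only [rs]
    push_cast
    ring

lemma ex_up {τ : Cfg} {u v : V} {c : ℝ} (h : T τ u v < c) : ∃ n, T (rs n τ) u v < c := by
  obtain ⟨q, -, hq⟩ := exists_lt h
  have hp : 0 < (c - SW τ q.edges) / ((q.edges.length : ℝ) + 1) :=
    div_pos (by linarith) (by positivity)
  obtain ⟨n, hn⟩ := exists_nat_one_div_lt hp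
  refine ⟨n, (T_le_SW _ q).trans_lt ?_⟩
  rw [SW_up]
  rw [lt_div_iff₀ (by positivity)] at hn
  have : (0 : ℝ) < 1 / ((n : ℝ) + 1) := by positivity
  nlinarith

variable (p : Par) (lo : ℝ≥0)

lemma et_meas : Measurable (et p lo) :=
  measurable_const.sub (measurable_const.indicator measurableSet_Iic)

lemma et_lo {t : ℝ≥0} (h : t ≤ lo) : et p lo t = p.F.real (Set.Iic lo) - 1 := by simp [et, h]
lemma et_hi {t : ℝ≥0} (h : lo < t) : et p lo t = p.F.real (Set.Iic lo) := by simp [et, h]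

lemma et_abs (t : ℝ≥0) : |et p lo t| ≤ 1 := by
  have h0 : 0 ≤ p.F.real (Set.Iic lo) := measureReal_nonneg
  have h1 : p.F.real (Set.Iic lo) ≤ 1 := measureReal_le_one
  rcases le_or_gt t lo with h | h
  · rw [et_lo p lo h, abs_le]; constructor <;> linarith
  · rw [et_hi p lo h, abs_le]; constructor <;> linarith

lemma et_nice (e : Sym2 V) : Nice fun τ : Cfg => et p lo (τ e) :=
  ⟨(et_meas p lo).comp (measurable_pi_apply e), 1, fun _ => et_abs p lo _⟩

lemma et_int : ∫ t, et p lo t ∂p.F = 0 := by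
  unfold et
  rw [integral_sub (integrable_const _) ((integrable_const _).indicator measurableSet_Iic),
    integral_indicator_const _ measurableSet_Iic]
  simp

lemma orth (e : Sym2 V) {f : Cfg → ℝ} (hf : Measurable f)
    (hd : ∀ τ t, f (update τ e t) = f τ) : ∫ τ, f τ * et p lo (τ e) ∂p.P = 0 := by
  rw [int_indep p e hf hd (et_meas p lo), et_int, mul_zero]

lemma fr_pre (n : ℕ) {e : Sym2 V} {B : Set Cfg} (hB : Inv e B) : Fr (rs n ⁻¹' B) e := fun τ t =>
  ⟨hB _ _ (fun _ he => up_upd n τ e t he) (up_pos _ _ _) (up_pos _ _ _),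
    hB _ _ (fun _ he => (up_upd n τ e t he).symm) (up_pos _ _ _) (up_pos _ _ _)⟩

lemma fr_ind {X : Set Cfg} {e : Sym2 V} (h : Fr X e) (τ : Cfg) (t : ℝ≥0) :
    X.indicator (fun _ => (1 : ℝ)) (update τ e t) = X.indicator (fun _ => (1 : ℝ)) τ := by
  by_cases k : τ ∈ X
  · rw [Set.indicator_of_mem k, Set.indicator_of_mem ((h τ t).2 k)]
  · rw [Set.indicator_of_notMem k, Set.indicator_of_notMem fun k' => k ((h τ t).1 k')]

lemma half {e e' : Sym2 V} (hne : e' ≠ e) {X : Set Cfg} (hX : MeasurableSet X) (hI : Fr X e) :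
    ∫ τ, X.indicator (fun _ => (1 : ℝ)) τ * et p lo (τ e') * et p lo (τ e) ∂p.P = 0 :=
  orth p lo e ((Nice.ind hX).mul (et_nice p lo e')).1 fun τ t => by
    rw [fr_ind hI, update_of_ne hne]

variable (n : ℕ) (o : V) (a : V → ℝ)

/-- the tail is reached first and early -/
def Aa (y z : V) : Set Cfg := A o (fun y => {τ | T τ o y < a y}) y z

lemma Aa_meas (y z : V) : MeasurableSet (Aa o a y z) := A_meas o (fun y => meas_lt o y (a y)) y z

/-- the increments -/
noncomputable def xz (y z : V) (τ : Cfg) : ℝ :=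
  (rs n ⁻¹' Aa o a y z).indicator (fun _ => 1) τ * et p lo (τ s(y, z))

lemma xz_nice (y z : V) : Nice (xz p lo n o a y z) :=
  (Nice.ind (up_meas n (Aa_meas o a y z))).mul (et_nice p lo _)

lemma xz_sq (y z : V) :
    ∫ τ, xz p lo n o a y z τ * xz p lo n o a y z τ ∂p.P ≤ p.pr (rs n ⁻¹' Aa o a y z) := by
  have h1 := up_meas n (Aa_meas o a y z)
  rw [← p.int_ind h1]
  refine integral_mono (((xz_nice p lo n o a y z).mul (xz_nice p lo n o a y z)).int _)
    ((Nice.ind h1).int _) fun τ => ?_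
  unfold xz
  by_cases h : τ ∈ rs n ⁻¹' Aa o a y z
  · simp only [Set.indicator_of_mem h, one_mul]
    have := abs_le.1 (et_abs p lo (τ s(y, z)))
    nlinarith
  · simp only [Set.indicator_of_notMem h, zero_mul, le_refl]

lemma xz_orth {y z y' z' : V} (hne : ¬(y = y' ∧ z = z')) :
    ∫ τ, xz p lo n o a y z τ * xz p lo n o a y' z' τ ∂p.P = 0 := by
  have hP : ∀ y, Pred o y {τ | T τ o y < a y} := fun y => pred_lt o y (a y)
  by_cases he : s(y, z) = s(y', z')
  · obtain ⟨rfl, rfl⟩ := (Sym2.eq_iff.1 he).resolve_left hne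
    refine integral_eq_zero_of_ae (ae_of_all _ fun τ => ?_)
    unfold xz
    by_cases h : τ ∈ rs n ⁻¹' Aa o a y z
    · have : τ ∉ rs n ⁻¹' Aa o a z y := fun h' => lt_asymm h.1 h'.1
      simp only [Set.indicator_of_notMem this, zero_mul, mul_zero, Pi.zero_apply]
    · simp only [Set.indicator_of_notMem h, zero_mul, Pi.zero_apply]
  · let B1 : Set Cfg := Aa o a y z ∩ Aa o a y' z' ∩ {τ | T τ o y' ≤ T τ o y}
    let B2 : Set Cfg := Aa o a y z ∩ Aa o a y' z' ∩ {τ | T τ o y < T τ o y'}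
    have m1 : MeasurableSet (rs n ⁻¹' B1) := up_meas n
      (((Aa_meas o a y z).inter (Aa_meas o a y' z')).inter
        (measurableSet_le (T_meas o y') (T_meas o y)))
    have m2 : MeasurableSet (rs n ⁻¹' B2) := up_meas n
      (((Aa_meas o a y z).inter (Aa_meas o a y' z')).inter
        (measurableSet_lt (T_meas o y) (T_meas o y')))
    have i1 : Inv s(y, z) B1 := fun τ τ' h h0 h0' hτ => by
      obtain ⟨k1, k2, k3, k4⟩ := B_inv hP h h0 h0' hτ.1.1 hτ.1.2 hτ.2
      exact ⟨⟨k1, k2⟩, show T τ' o y' ≤ T τ' o y by rw [k3, k4]; exact hτ.2⟩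
    have i2 : Inv s(y', z') B2 := fun τ τ' h h0 h0' hτ => by
      obtain ⟨k1, k2, k3, k4⟩ := B_inv hP h h0 h0' hτ.1.2 hτ.1.1 (le_of_lt hτ.2)
      exact ⟨⟨k2, k1⟩, show T τ' o y < T τ' o y' by rw [k3, k4]; exact hτ.2⟩
    have e1 := half p lo (Ne.symm he) m1 (fr_pre n i1)
    have e2 := half p lo he m2 (fr_pre n i2)
    have e3 := integral_add ((((Nice.ind m1).mul (et_nice p lo s(y', z'))).mul
      (et_nice p lo s(y, z))).int p.P) ((((Nice.ind m2).mul (et_nice p lo s(y, z))).mul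
      (et_nice p lo s(y', z'))).int p.P)
    rw [e1, e2, add_zero] at e3
    rw [← e3]
    refine integral_congr_ae (ae_of_all _ fun τ => ?_)
    simp only [xz]
    by_cases h1 : τ ∈ rs n ⁻¹' Aa o a y z
    · by_cases h2 : τ ∈ rs n ⁻¹' Aa o a y' z'
      · rcases le_or_gt (T (rs n τ) o y') (T (rs n τ) o y) with h3 | h3
        · have k1 : τ ∈ rs n ⁻¹' B1 := ⟨⟨h1, h2⟩, h3⟩
          have k2 : τ ∉ rs n ⁻¹' B2 := fun h => absurd h.2 (not_lt.2 h3)
          simp only [Set.indicator_of_mem h1, Set.indicator_of_mem h2, Set.indicator_of_mem k1,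
            Set.indicator_of_notMem k2]
          ring
        · have k1 : τ ∉ rs n ⁻¹' B1 := fun h => absurd h.2 (not_le.2 h3)
          have k2 : τ ∈ rs n ⁻¹' B2 := ⟨⟨h1, h2⟩, h3⟩
          simp only [Set.indicator_of_mem h1, Set.indicator_of_mem h2, Set.indicator_of_mem k2,
            Set.indicator_of_notMem k1]
          ring
      · have k1 : τ ∉ rs n ⁻¹' B1 := fun h => h2 h.1.2
        have k2 : τ ∉ rs n ⁻¹' B2 := fun h => h2 h.1.2
        simp only [Set.indicator_of_notMem h2, Set.indicator_of_notMem k1,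
          Set.indicator_of_notMem k2]
        ring
    · have k1 : τ ∉ rs n ⁻¹' B1 := fun h => h1 h.1.1
      have k2 : τ ∉ rs n ⁻¹' B2 := fun h => h1 h.1.1
      simp only [Set.indicator_of_notMem h1, Set.indicator_of_notMem k1,
        Set.indicator_of_notMem k2]
      ring

lemma cov {hi : ℝ≥0} (hlt : lo < hi) {x y z : V} {t H : ℝ} (hH : 0 ≤ H)
    (hadj : G.Adj y z) {C : Set Cfg}
    (hC : MeasurableSet C) (hs : ∀ τ ∈ C, τ ∈ rs n ⁻¹' Aa o a y z ∧
      T τ o y + τ s(y, z) + T τ z x ≤ T τ o x + ((hi : ℝ) - lo) / 2 ∧ hi < τ s(y, z) ∧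
      t - H + ((hi : ℝ) - lo) / 2 ≤ T τ o x ∧ T τ o x ≤ t) :
    p.F.real (Set.Iic lo) * (((hi : ℝ) - lo) / 2) * p.pr C ≤
      ∫ τ, ψ t H (T τ o x) * xz p lo n o a y z τ ∂p.P := by
  have mA := up_meas n (Aa_meas o a y z)
  have nP := ψ_nice t hH o x
  have nlo : Nice fun τ : Cfg => ψ t H (T (update τ s(y, z) lo) o x) :=
    nP.comp measurable_update_left
  have h0 := orth p lo s(y, z)
    (f := fun τ => ψ t H (T (update τ s(y, z) lo) o x) *
      (rs n ⁻¹' Aa o a y z).indicator (fun _ => 1) τ)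
    (nlo.mul (Nice.ind mA)).1 fun τ t => by
      rw [fr_ind (fr_pre n (B := Aa o a y z) (A_inv o (fun y => pred_lt o y (a y)) y z)),
        update_idem]
  have i1 := ((nlo.mul (Nice.ind mA)).mul (et_nice p lo s(y, z))).int p.P
  have i2 := ((Nice.ind hC).int p.P).const_mul (p.F.real (Set.Iic lo) * (((hi : ℝ) - lo) / 2))
  have e := integral_add i1 i2
  rw [h0, zero_add, integral_const_mul, p.int_ind hC] at e
  rw [← e]
  refine integral_mono (i1.add i2) ((nP.mul (xz_nice p lo n o a y z)).int _) fun τ => ?_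
  have hq : 0 ≤ p.F.real (Set.Iic lo) := measureReal_nonneg
  have hq1 : p.F.real (Set.Iic lo) ≤ 1 := measureReal_le_one
  have hlo : (lo : ℝ) < hi := hlt
  simp only [xz]
  by_cases hE : τ ∈ C
  · obtain ⟨hA, k1, k2, w1, w2⟩ := hs τ hE
    have k2' : (hi : ℝ) < τ s(y, z) := k2
    have hl : lo < τ s(y, z) := hlt.trans k2
    have hle : update τ s(y, z) lo ≤ τ := update_le_self_iff.2 hl.le
    have k4 := T_adj (update τ s(y, z) lo) hadj
    rw [update_self] at k4
    have k5 : T (update τ s(y, z) lo) o x ≤ T τ o x - ((hi : ℝ) - lo) / 2 := by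
      linarith [T_tri (update τ s(y, z) lo) o y x, T_tri (update τ s(y, z) lo) y z x,
        T_mono hle o y, T_mono hle z x]
    have k6 := ψ_gain (by linarith) w1 w2 k5
    simp only [Set.indicator_of_mem hE, Set.indicator_of_mem hA, et_hi p lo hl]
    nlinarith
  · rw [Set.indicator_of_notMem hE]
    by_cases hA : τ ∈ rs n ⁻¹' Aa o a y z
    · rw [Set.indicator_of_mem hA]
      rcases le_or_gt (τ s(y, z)) lo with hl | hl
      · have := ψ_mono t H (T_mono (le_update_self_iff.2 hl : τ ≤ update τ s(y, z) lo) o x)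
        rw [et_lo p lo hl]
        nlinarith
      · have := ψ_mono t H (T_mono (update_le_self_iff.2 hl.le : update τ s(y, z) lo ≤ τ) o x)
        rw [et_hi p lo hl]
        nlinarith
    · rw [Set.indicator_of_notMem hA]
      simp

lemma core {hi : ℝ≥0} (hlt : lo < hi) {x : V} {π α t H lam : ℝ}
    (I : Finset (V × V)) (hl : 0 < lam) (hH : 0 ≤ H) (hα : p.pr {τ | T τ o x < t} ≤ α)
    (hI : ∀ i ∈ I, G.Adj i.1 i.2 ∧ p.pr (rs n ⁻¹' Aa o a i.1 i.2) ≤ π)
    (C : V × V → Set Cfg) (hC : ∀ i, MeasurableSet (C i))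
    (hs : ∀ i, ∀ τ ∈ C i, τ ∈ rs n ⁻¹' Aa o a i.1 i.2 ∧
      T τ o i.1 + τ s(i.1, i.2) + T τ i.2 x ≤ T τ o x + ((hi : ℝ) - lo) / 2 ∧
      hi < τ s(i.1, i.2) ∧ t - H + ((hi : ℝ) - lo) / 2 ≤ T τ o x ∧ T τ o x ≤ t) :
    p.F.real (Set.Iic lo) * (((hi : ℝ) - lo) / 2) * ∑ i ∈ I, p.pr (C i) ≤
      lam / 2 * (H ^ 2 * α) + π / (2 * lam) * I.card := by
  classical
  have nC := ψ_nice t hH o x
  have nx : ∀ i ∈ I, Nice fun τ => xz p lo n o a i.1 i.2 τ := fun i _ => xz_nice p lo n o a _ _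
  have nX := V3.Nice.sum I nx
  have e1 : ∫ τ, ψ t H (T τ o x) * ψ t H (T τ o x) ∂p.P ≤ H ^ 2 * α := by
    refine le_trans ?_ (mul_le_mul_of_nonneg_left hα (sq_nonneg H))
    rw [← p.int_ind (meas_lt o x t), ← integral_const_mul]
    refine integral_mono ((nC.mul nC).int _) (((Nice.ind (meas_lt o x t)).int _).const_mul _)
      fun τ => ?_
    by_cases h : τ ∈ {τ | T τ o x < t}
    · simp only [Set.indicator_of_mem h]
      have := abs_le.1 (ψ_abs t hH (T τ o x))
      nlinarith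
    · simp only [Set.indicator_of_notMem h, ψ_top hH (not_lt.1 h), mul_zero, le_refl]
  have e2 : ∫ τ, (∑ i ∈ I, xz p lo n o a i.1 i.2 τ) * (∑ i ∈ I, xz p lo n o a i.1 i.2 τ)
      ∂p.P ≤ π * I.card := by
    simp only [sum_mul_sum]
    rw [integral_finsetSum _ fun i hi =>
      (V3.Nice.sum I fun j hj => (nx i hi).mul (nx j hj)).int _, mul_comm, ← nsmul_eq_mul]
    refine sum_le_card_nsmul _ _ _ fun i hi => ?_
    rw [integral_finsetSum _ fun j hj => ((nx i hi).mul (nx j hj)).int _,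
      sum_eq_single_of_mem i hi fun j hj hne => ?_]
    · exact (xz_sq p lo n o a _ _).trans (hI i hi).2
    · exact xz_orth p lo n o a fun k => hne (Prod.ext k.1 k.2).symm
  have e3 : p.F.real (Set.Iic lo) * (((hi : ℝ) - lo) / 2) * ∑ i ∈ I, p.pr (C i) ≤
      ∫ τ, ψ t H (T τ o x) * ∑ i ∈ I, xz p lo n o a i.1 i.2 τ ∂p.P := by
    simp only [mul_sum]
    rw [integral_finsetSum _ fun i hi => (nC.mul (nx i hi)).int _]
    exact sum_le_sum fun i hi => cov p lo n o a hlt hH (hI i hi).1 (hC i) (hs i)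
  have j1 := ((nC.mul nC).int p.P).const_mul (lam / 2)
  have j2 := ((nX.mul nX).int p.P).const_mul (1 / (2 * lam))
  have e4 := integral_mono ((nC.mul nX).int p.P) (j1.add j2) fun τ => by
    show ψ t H (T τ o x) * _ ≤ lam / 2 * (ψ t H (T τ o x) * ψ t H (T τ o x)) +
      1 / (2 * lam) * (_ * _)
    generalize ψ t H (T τ o x) = u
    generalize ∑ i ∈ I, xz p lo n o a i.1 i.2 τ = v
    have : lam / 2 * (u * u) + 1 / (2 * lam) * (v * v) - u * v = (lam * u - v) ^ 2 / (2 * lam) := by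
      field_simp; ring
    have h2 : 0 ≤ (lam * u - v) ^ 2 / (2 * lam) := by positivity
    linarith
  simp only [Pi.add_apply] at e4
  rw [integral_add j1 j2, integral_const_mul, integral_const_mul] at e4
  have e5 := mul_le_mul_of_nonneg_left e1 (by positivity : 0 ≤ lam / 2)
  have e6 := mul_le_mul_of_nonneg_left e2 (by positivity : 0 ≤ 1 / (2 * lam))
  have e7 : 1 / (2 * lam) * (π * I.card) = π / (2 * lam) * I.card := by ring
  linarith

end M0

open M0 in
/-- the martingale bound, for every law -/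
theorem mart0 (p : Par) {lo hi : ℝ≥0} (hlt : lo < hi) (o x : V) (a : V → ℝ) {π α t H lam : ℝ}
    (I : Finset (V × V)) (hl : 0 < lam) (hH : 0 ≤ H)
    (hI : ∀ i ∈ I, G.Adj i.1 i.2 ∧ p.pr {τ | T τ o i.1 < a i.1} ≤ π)
    (hα : p.pr {τ | T τ o x < t} ≤ α) :
    p.F.real (Set.Iic lo) * (((hi : ℝ) - lo) / 2) * ∑ i ∈ I,
      p.pr ({τ | T τ o i.1 + τ s(i.1, i.2) + T τ i.2 x ≤ T τ o x + ((hi : ℝ) - lo) / 2 ∧
          hi < τ s(i.1, i.2) ∧ T τ o i.1 < a i.1} ∩
        {τ | t - H + ((hi : ℝ) - lo) / 2 ≤ T τ o x ∧ T τ o x ≤ t}) ≤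
      lam / 2 * (H ^ 2 * α) + π / (2 * lam) * I.card := by
  set s : ℝ := ((hi : ℝ) - lo) / 2 with hs
  let E : V × V → Set Cfg := fun i =>
    {τ | T τ o i.1 + τ s(i.1, i.2) + T τ i.2 x ≤ T τ o x + s ∧
      hi < τ s(i.1, i.2) ∧ T τ o i.1 < a i.1} ∩ {τ | t - H + s ≤ T τ o x ∧ T τ o x ≤ t}
  have mE : ∀ i, MeasurableSet (E i) := fun i =>
    ((measurableSet_le (((T_meas o i.1).add (meas_w _)).add (T_meas i.2 x))
      ((T_meas o x).add_const _)).inter
      ((measurableSet_lt measurable_const (measurable_pi_apply _)).inter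
        (meas_lt o i.1 _))).inter (win_meas o x _ t)
  let C : ℕ → V × V → Set Cfg := fun n i =>
    E i ∩ {τ | T (rs n τ) o i.1 < min (T τ o i.2) (a i.1)}
  have mC : ∀ n i, MeasurableSet (C n i) := fun n i =>
    (mE i).inter (measurableSet_lt ((T_meas o i.1).comp (up_meas n))
      ((T_meas o i.2).min measurable_const))
  have key : ∀ n, p.F.real (Set.Iic lo) * s * ∑ i ∈ I, p.pr (C n i) ≤
      lam / 2 * (H ^ 2 * α) + π / (2 * lam) * I.card := fun n => by
    refine core p lo n o a hlt I hl hH hα (fun i hi => ⟨(hI i hi).1,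
        (p.pr_mono fun τ h => ?_).trans (hI i hi).2⟩) (C n) (mC n) fun i τ h => ?_
    · exact (T_mono (le_up n _) o i.1).trans_lt h.2
    · obtain ⟨⟨h1, h2⟩, h4⟩ := h
      have h5 := lt_min_iff.1 (show T (rs n τ) o i.1 < min _ _ from h4)
      exact ⟨⟨h5.1.trans_le (T_mono (le_up n _) o i.2), h5.2⟩, h1.1, h1.2.1, h2⟩
  have lim : ∀ i, Tendsto (fun n => p.pr (C n i)) atTop (𝓝 (p.pr (E i))) := fun i => by
    have mono : Monotone fun n => C n i := fun n k h τ hτ =>
      ⟨hτ.1, (T_mono (up_anti h _) o i.1).trans_lt hτ.2⟩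
    have un : ⋃ n, C n i = E i := by
      refine Set.Subset.antisymm (Set.iUnion_subset fun n => Set.inter_subset_left) fun τ h => ?_
      have k1 := h.1.1
      have k2 : (hi : ℝ) < τ s(i.1, i.2) := h.1.2.1
      have k3 : T τ o i.1 < T τ o i.2 := by
        linarith [T_tri τ o i.2 x, lo.coe_nonneg, hi.coe_nonneg]
      obtain ⟨n, hn⟩ := ex_up (lt_min k3 h.1.2.2)
      exact Set.mem_iUnion.2 ⟨n, h, hn⟩
    have := tendsto_measure_iUnion_atTop (μ := p.P) mono
    rw [un] at this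
    exact (ENNReal.tendsto_toReal (measure_ne_top _ _)).comp this
  exact le_of_tendsto' ((tendsto_finsetSum I fun i _ => lim i).const_mul _) key

end Pool.Agent.Lib.T3X
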