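import Pool.Agent.Lib.T3X.Base

/-! Row MART: orthogonal increments along the growth from a site, clamped passage time. -/

namespace Pool.Agent.Lib.T3X

open MeasureTheory ProbabilityTheory Filter Topology Function Finset SimpleGraph Pool.Agent.Lib.V3
open Pool.Agent.Lib.V5
open scoped NNReal ENNReal

namespace MART

/-- walks through an edge are slow -/
lemma thru (τ : Cfg) (o y z : V) {u v : V} (q : G.Walk u v) : s(y, z) ∈ q.edges →
    min (T τ o y) (T τ o z) + τ s(y, z) ≤ T τ o u + SW τ q.edges := by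
  induction q with
  | nil => simp
  | @cons u w v h q ih =>
    intro he
    rw [Walk.edges_cons] at he ⊢
    rw [SW_cons]
    by_cases h1 : s(y, z) = s(u, w)
    · have h2 : min (T τ o y) (T τ o z) ≤ T τ o u := by
        rcases Sym2.eq_iff.1 h1 with ⟨rfl, -⟩ | ⟨-, rfl⟩
        · exact min_le_left _ _
        · exact min_le_right _ _
      rw [← h1]
      linarith [SW_nonneg τ q.edges]
    · have := ih ((List.mem_cons.1 he).resolve_left h1)
      linarith [T_tri τ o u w, T_adj τ h]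

section det

variable {τ τ' : Cfg} {o y z : V}

lemma K1 (h : ∀ e, e ≠ s(y, z) → τ e = τ' e) {v : V}
    (hv : T τ o v < min (T τ o y) (T τ o z) + τ s(y, z)) : T τ' o v ≤ T τ o v := by
  by_contra hc
  obtain ⟨q, -, hq⟩ := exists_lt (lt_min (not_le.1 hc) hv)
  rw [lt_min_iff] at hq
  have h1 : s(y, z) ∉ q.edges := fun he => by
    have := thru τ o y z q he
    rw [T_self] at this
    linarith [hq.2]
  have h2 := T_le_SW τ' q
  rw [← SW_congr fun e he => h e fun h' => h1 (h' ▸ he)] at h2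
  linarith [hq.1]

lemma Kmin (h : ∀ e, e ≠ s(y, z) → τ e = τ' e) (h0 : 0 < τ s(y, z)) :
    min (T τ' o y) (T τ' o z) ≤ min (T τ o y) (T τ o z) := by
  have h0' : (0 : ℝ) < τ s(y, z) := h0
  rcases le_total (T τ o y) (T τ o z) with h1 | h1
  · refine (min_le_left _ _).trans ((K1 h ?_).trans_eq (min_eq_left h1).symm)
    rw [min_eq_left h1]; linarith
  · refine (min_le_right _ _).trans ((K1 h ?_).trans_eq (min_eq_right h1).symm)
    rw [min_eq_right h1]; linarith

lemma K2 (h : ∀ e, e ≠ s(y, z) → τ e = τ' e) (h0 : 0 < τ s(y, z)) (h0' : 0 < τ' s(y, z)) {v : V}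
    (hv : T τ o v ≤ min (T τ o y) (T τ o z)) : T τ' o v = T τ o v := by
  have b0 : (0 : ℝ) < τ s(y, z) := h0
  have b1 : (0 : ℝ) < τ' s(y, z) := h0'
  have a1 : T τ' o v ≤ T τ o v := K1 h (by linarith)
  have a2 := Kmin (o := o) (fun e he => (h e he).symm) h0'
  exact le_antisymm a1 (K1 (fun e he => (h e he).symm) (by linarith))

lemma K3 (h : ∀ e, e ≠ s(y, z) → τ e = τ' e) (h0 : 0 < τ s(y, z)) (h0' : 0 < τ' s(y, z))
    (hyz : T τ o y < T τ o z) (v : V) :
    (T τ o v ≤ T τ o y → T τ' o v = T τ o v) ∧ (T τ o y < T τ o v → T τ o y < T τ' o v) := by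
  have hm := min_eq_left hyz.le
  refine ⟨fun hv => K2 h h0 h0' (hm.symm ▸ hv), fun hv => ?_⟩
  by_contra hc
  have a2 := Kmin (o := o) (fun e he => (h e he).symm) h0'
  have := K2 (fun e he => (h e he).symm) h0' h0 (v := v) (o := o) (by linarith)
  linarith

end det

/-- being reached early is decided on arrival -/
lemma pred_lt (o y : V) (c : ℝ) : Pred o y {τ | T τ o y < c} := fun _ _ _ _ h h0 h0' hy hτ => by
  show T _ o y < c
  rw [K2 h h0 h0' hy]
  exact hτ

/-- the tail is reached first, and is marked -/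
def A (o : V) (C : V → Set Cfg) (y z : V) : Set Cfg := {τ | T τ o y < T τ o z ∧ τ ∈ C y}

lemma A_meas (o : V) {C : V → Set Cfg} (hC : ∀ y, MeasurableSet (C y)) (y z : V) :
    MeasurableSet (A o C y z) :=
  (measurableSet_lt (T_meas o y) (T_meas o z)).inter (hC y)

/-- the set does not depend on the positive weight of `e` -/
def Inv (e : Sym2 V) (B : Set Cfg) : Prop :=
  ∀ τ τ' : Cfg, (∀ e', e' ≠ e → τ e' = τ' e') → 0 < τ e → 0 < τ' e → τ ∈ B → τ' ∈ B

lemma B_inv {τ τ' : Cfg} {o y z y' z' : V} {C : V → Set Cfg} (hP : ∀ y, Pred o y (C y))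
    (h : ∀ e, e ≠ s(y, z) → τ e = τ' e)
    (h0 : 0 < τ s(y, z)) (h0' : 0 < τ' s(y, z)) (h1 : τ ∈ A o C y z) (h2 : τ ∈ A o C y' z')
    (h3 : T τ o y' ≤ T τ o y) :
    τ' ∈ A o C y z ∧ τ' ∈ A o C y' z' ∧ T τ' o y = T τ o y ∧ T τ' o y' = T τ o y' := by
  have k := K3 h h0 h0' h1.1
  have e1 := (k y).1 le_rfl
  have e2 := (k y').1 h3
  have hm := (min_eq_left h1.1.le).ge
  refine ⟨⟨?_, hP y y z τ τ' h h0 h0' hm h1.2⟩, ⟨?_, hP y' y z τ τ' h h0 h0' (h3.trans hm) h2.2⟩,
    e1, e2⟩
  · rw [e1]; exact (k z).2 h1.1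
  · rw [e2]
    rcases le_or_gt (T τ o z') (T τ o y) with h4 | h4
    · rw [(k z').1 h4]; exact h2.1
    · exact h3.trans_lt ((k z').2 h4)

lemma A_inv (o : V) {C : V → Set Cfg} (hP : ∀ y, Pred o y (C y)) (y z : V) :
    Inv s(y, z) (A o C y z) :=
  fun _ _ h h0 h0' h1 => (B_inv hP h h0 h0' h1 h1 le_rfl).1

lemma Inv.ind {e : Sym2 V} {B : Set Cfg} (hB : Inv e B) {τ : Cfg} (h0 : 0 < τ e) :
    B.indicator (fun _ => (1 : ℝ)) (update τ e 1) = B.indicator (fun _ => (1 : ℝ)) τ := by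
  have h1 : 0 < update τ e 1 e := by rw [update_self]; exact one_pos
  have h2 : ∀ e', e' ≠ e → τ e' = update τ e 1 e' := fun e' he => (update_of_ne he _ _).symm
  by_cases h : τ ∈ B
  · rw [Set.indicator_of_mem h, Set.indicator_of_mem (hB _ _ h2 h0 h1 h)]
  · rw [Set.indicator_of_notMem h,
      Set.indicator_of_notMem fun h' => h (hB _ _ (fun e' he => (h2 e' he).symm) h1 h0 h')]

lemma int_indep (p : Par) (e : Sym2 V) {f : Cfg → ℝ} (hf : Measurable f)
    (hd : ∀ τ t, f (update τ e t) = f τ) {g : ℝ≥0 → ℝ} (hg : Measurable g) :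
    ∫ τ, f τ * g (τ e) ∂p.P = (∫ τ, f τ ∂p.P) * ∫ t, g t ∂p.F := by
  have hm : Measurable fun τ : Cfg => f τ * g (τ e) := hf.mul (hg.comp (measurable_pi_apply e))
  have hr : MeasurePreserving (fun z : Cfg × ℝ≥0 => update z.1 e z.2) (p.P.prod p.F) p.P :=
    FP95.RES.resample p.F e
  have h1 := integral_map (μ := p.P.prod p.F) hr.measurable.aemeasurable hm.aestronglyMeasurable
  rw [hr.map_eq] at h1
  rw [h1]
  simp only [hd, update_self]
  exact integral_prod_mul f g

/-- the centred indicator of a light weight -/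
noncomputable def eta (p : Sys) (t : ℝ≥0) : ℝ := p.q - (Set.Iic p.lo).indicator (fun _ => 1) t

variable (p : Sys)

lemma eta_meas : Measurable (eta p) :=
  measurable_const.sub (measurable_const.indicator measurableSet_Iic)

lemma eta_lo {t : ℝ≥0} (h : t ≤ p.lo) : eta p t = p.q - 1 := by simp [eta, h]
lemma eta_hi {t : ℝ≥0} (h : p.lo < t) : eta p t = p.q := by simp [eta, h]

lemma eta_abs (t : ℝ≥0) : |eta p t| ≤ 1 := by
  have := p.q_pos'
  have := p.q_le_one
  rcases le_or_gt t p.lo with h | h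
  · rw [eta_lo p h, abs_le]; constructor <;> linarith
  · rw [eta_hi p h, abs_le]; constructor <;> linarith

lemma eta_nice (e : Sym2 V) : Nice fun τ : Cfg => eta p (τ e) :=
  ⟨(eta_meas p).comp (measurable_pi_apply e), 1, fun _ => eta_abs p _⟩

lemma eta_int : ∫ t, eta p t ∂p.F = 0 := by
  unfold eta
  rw [integral_sub (integrable_const _) ((integrable_const _).indicator measurableSet_Iic),
    integral_indicator_const _ measurableSet_Iic]
  simp [Par.q]

lemma orth (hz : p.F {0} = 0) (e : Sym2 V) {f : Cfg → ℝ} (hf : Measurable f)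
    (hd : ∀ τ : Cfg, 0 < τ e → f (update τ e 1) = f τ) : ∫ τ, f τ * eta p (τ e) ∂p.P = 0 := by
  have h1 := int_indep p.toPar e (f := fun τ => f (update τ e 1))
    (hf.comp (measurable_update_left)) (fun τ t => by rw [update_idem]) (eta_meas p)
  rw [eta_int, mul_zero] at h1
  rw [← h1]
  exact integral_congr_ae ((ae_pos p.toPar hz e).mono fun τ h => by simp only [hd τ h])

/-- the increments -/
noncomputable def xi (o : V) (C : V → Set Cfg) (y z : V) (τ : Cfg) : ℝ :=
  (A o C y z).indicator (fun _ => 1) τ * eta p (τ s(y, z))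

variable (o : V) {C : V → Set Cfg} (hC : ∀ y, MeasurableSet (C y))
include hC

lemma xi_nice (y z : V) : Nice (xi p o C y z) := (Nice.ind (A_meas o hC y z)).mul (eta_nice p _)

lemma xi_int (hz : p.F {0} = 0) (hP : ∀ y, Pred o y (C y)) (y z : V) : ∫ τ, xi p o C y z τ ∂p.P = 0 :=
  orth p hz _ (Nice.ind (A_meas o hC y z)).1 fun _ h => (A_inv o hP y z).ind h

lemma xi_sq (y z : V) : ∫ τ, xi p o C y z τ * xi p o C y z τ ∂p.P ≤ p.pr (C y) := by
  rw [← p.int_ind (hC y)]
  refine integral_mono (((xi_nice p o hC y z).mul (xi_nice p o hC y z)).int _)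
    ((Nice.ind (hC y)).int _) fun τ => ?_
  unfold xi
  by_cases h : τ ∈ A o C y z
  · have h' : τ ∈ C y := h.2
    simp only [Set.indicator_of_mem h, Set.indicator_of_mem h', one_mul]
    have := abs_le.1 (eta_abs p (τ s(y, z)))
    nlinarith
  · simp only [Set.indicator_of_notMem h, zero_mul]
    exact Set.indicator_nonneg (fun _ _ => zero_le_one) _

omit hC in
lemma half (hz : p.F {0} = 0) {e e' : Sym2 V} (hne : e' ≠ e) {B : Set Cfg} (hB : MeasurableSet B) (hI : Inv e B) :
    ∫ τ, B.indicator (fun _ => (1 : ℝ)) τ * eta p (τ e') * eta p (τ e) ∂p.P = 0 :=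
  orth p hz e ((Nice.ind hB).mul (eta_nice p e')).1 fun τ h => by
    rw [hI.ind h, update_of_ne hne]

lemma xi_orth (hz : p.F {0} = 0) (hP : ∀ y, Pred o y (C y)) {y z y' z' : V} (hne : ¬(y = y' ∧ z = z')) :
    ∫ τ, xi p o C y z τ * xi p o C y' z' τ ∂p.P = 0 := by
  by_cases he : s(y, z) = s(y', z')
  · obtain ⟨rfl, rfl⟩ := (Sym2.eq_iff.1 he).resolve_left hne
    refine integral_eq_zero_of_ae (ae_of_all _ fun τ => ?_)
    unfold xi
    by_cases h : τ ∈ A o C y z
    · have : τ ∉ A o C z y := fun h' => lt_asymm h.1 h'.1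
      simp [this]
    · simp [h]
  · let B1 : Set Cfg := A o C y z ∩ A o C y' z' ∩ {τ | T τ o y' ≤ T τ o y}
    let B2 : Set Cfg := A o C y z ∩ A o C y' z' ∩ {τ | T τ o y < T τ o y'}
    have m1 : MeasurableSet B1 := ((A_meas o hC y z).inter (A_meas o hC y' z')).inter
      (measurableSet_le (T_meas o y') (T_meas o y))
    have m2 : MeasurableSet B2 := ((A_meas o hC y z).inter (A_meas o hC y' z')).inter
      (measurableSet_lt (T_meas o y) (T_meas o y'))
    have i1 : Inv s(y, z) B1 := fun τ τ' h h0 h0' hτ => by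
      obtain ⟨k1, k2, k3, k4⟩ := B_inv hP h h0 h0' hτ.1.1 hτ.1.2 hτ.2
      exact ⟨⟨k1, k2⟩, show T τ' o y' ≤ T τ' o y by rw [k3, k4]; exact hτ.2⟩
    have i2 : Inv s(y', z') B2 := fun τ τ' h h0 h0' hτ => by
      obtain ⟨k1, k2, k3, k4⟩ := B_inv hP h h0 h0' hτ.1.2 hτ.1.1 (le_of_lt hτ.2)
      exact ⟨⟨k2, k1⟩, show T τ' o y < T τ' o y' by rw [k3, k4]; exact hτ.2⟩
    have e1 := half p hz (Ne.symm he) m1 i1
    have e2 := half p hz he m2 i2
    have e3 := integral_add ((((Nice.ind m1).mul (eta_nice p s(y', z'))).mul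
      (eta_nice p s(y, z))).int p.P) ((((Nice.ind m2).mul (eta_nice p s(y, z))).mul
      (eta_nice p s(y', z'))).int p.P)
    rw [e1, e2, add_zero] at e3
    rw [← e3]
    refine integral_congr_ae (ae_of_all _ fun τ => ?_)
    simp only [xi]
    by_cases h1 : τ ∈ A o C y z
    · by_cases h2 : τ ∈ A o C y' z'
      · rcases le_or_gt (T τ o y') (T τ o y) with h3 | h3
        · have k1 : τ ∈ B1 := ⟨⟨h1, h2⟩, h3⟩
          have k2 : τ ∉ B2 := fun h => absurd h.2 (not_lt.2 h3)
          simp only [Set.indicator_of_mem h1, Set.indicator_of_mem h2, Set.indicator_of_mem k1,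
            Set.indicator_of_notMem k2]
          ring
        · have k1 : τ ∉ B1 := fun h => absurd h.2 (not_le.2 h3)
          have k2 : τ ∈ B2 := ⟨⟨h1, h2⟩, h3⟩
          simp only [Set.indicator_of_mem h1, Set.indicator_of_mem h2, Set.indicator_of_mem k2,
            Set.indicator_of_notMem k1]
          ring
      · have k1 : τ ∉ B1 := fun h => h2 h.1.2
        have k2 : τ ∉ B2 := fun h => h2 h.1.2
        simp only [Set.indicator_of_notMem h2, Set.indicator_of_notMem k1,
          Set.indicator_of_notMem k2]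
        ring
    · have k1 : τ ∉ B1 := fun h => h1 h.1.1
      have k2 : τ ∉ B2 := fun h => h1 h.1.1
      simp only [Set.indicator_of_notMem h1, Set.indicator_of_notMem k1,
        Set.indicator_of_notMem k2]
      ring

omit hC

/-- the clamp, centred at the top of the window -/
noncomputable def ψ (t H u : ℝ) : ℝ := max (-H) (min (u - t) 0)

lemma ψ_mono (t H : ℝ) : Monotone (ψ t H) := fun _ _ h =>
  max_le_max le_rfl (min_le_min (by linarith) le_rfl)

lemma ψ_abs (t : ℝ) {H : ℝ} (hH : 0 ≤ H) (u : ℝ) : |ψ t H u| ≤ H :=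
  abs_le.2 ⟨le_max_left _ _, max_le (by linarith) ((min_le_right _ _).trans hH)⟩

lemma ψ_top {t H u : ℝ} (hH : 0 ≤ H) (h : t ≤ u) : ψ t H u = 0 := by
  unfold ψ
  rw [min_eq_right (by linarith), max_eq_right (by linarith)]

lemma ψ_gain {t H u u' c : ℝ} (hc : 0 ≤ c) (h1 : t - H + c ≤ u) (h2 : u ≤ t) (h3 : u' ≤ u - c) :
    ψ t H u' ≤ ψ t H u - c := by
  have e : ψ t H u = u - t := by
    unfold ψ
    rw [min_eq_left (by linarith), max_eq_right (by linarith)]
  rw [e]
  exact max_le (by linarith) ((min_le_left _ _).trans (by linarith))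

lemma ψ_nice (t : ℝ) {H : ℝ} (hH : 0 ≤ H) (o x : V) : Nice fun τ => ψ t H (T τ o x) :=
  ⟨(ψ_mono t H).measurable.comp (T_meas o x), H, fun _ => ψ_abs t hH _⟩

lemma cov (hz : p.F {0} = 0) (hC : ∀ y, MeasurableSet (C y)) (hP : ∀ y, Pred o y (C y)) (x : V)
    (t : ℝ) {H : ℝ} (hH : 0 ≤ H) {y z : V}
    (hadj : G.Adj y z) :
    p.q * p.sl * p.pr (Ev p o x C y z ∩ {τ | t - H + p.sl ≤ T τ o x ∧ T τ o x ≤ t}) ≤
      ∫ τ, ψ t H (T τ o x) * xi p o C y z τ ∂p.P := by
  have nlo : Nice fun τ : Cfg => ψ t H (T (update τ s(y, z) p.lo) o x) :=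
    (ψ_nice t hH o x).comp measurable_update_left
  have mE := (Ev_meas p o x hC y z).inter (win_meas o x (t - H + p.sl) t)
  have h0 := orth p hz s(y, z)
    (f := fun τ => ψ t H (T (update τ s(y, z) p.lo) o x) * (A o C y z).indicator (fun _ => 1) τ)
    (nlo.mul (Nice.ind (A_meas o hC y z))).1 fun τ h => by
      rw [(A_inv o hP y z).ind h, update_idem]
  have i1 := ((nlo.mul (Nice.ind (A_meas o hC y z))).mul (eta_nice p s(y, z))).int p.P
  have i2 := ((Nice.ind mE).int p.P).const_mul (p.q * p.sl)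
  have e := integral_add i1 i2
  rw [h0, zero_add, integral_const_mul, p.int_ind mE] at e
  rw [← e]
  refine integral_mono (i1.add i2) (((ψ_nice t hH o x).mul (xi_nice p o hC y z)).int _)
    fun τ => ?_
  have hq := p.q_pos'
  have hq1 := p.q_le_one
  have hd := p.sl_pos
  have hlo : (p.lo : ℝ) < p.hi := p.lo_lt_hi
  have hd' : p.sl = (p.hi - p.lo) / 2 := rfl
  simp only [xi]
  by_cases hE : τ ∈ Ev p o x C y z ∩ {τ | t - H + p.sl ≤ T τ o x ∧ T τ o x ≤ t}
  · obtain ⟨⟨k1, k2, k3⟩, w1, w2⟩ := id hE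
    have k2' : (p.hi : ℝ) < τ s(y, z) := k2
    have hA : τ ∈ A o C y z := ⟨by linarith [T_tri τ o z x, p.lo.coe_nonneg], k3⟩
    have hl : p.lo < τ s(y, z) := (NNReal.coe_lt_coe.1 hlo).trans k2
    have hle : update τ s(y, z) p.lo ≤ τ := update_le_self_iff.2 hl.le
    have k4 := T_adj (update τ s(y, z) p.lo) hadj
    rw [update_self] at k4
    have k5 : T (update τ s(y, z) p.lo) o x ≤ T τ o x - p.sl := by
      linarith [T_tri (update τ s(y, z) p.lo) o y x, T_tri (update τ s(y, z) p.lo) y z x,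
        T_mono hle o y, T_mono hle z x]
    have k6 := ψ_gain hd.le w1 w2 k5
    simp only [Set.indicator_of_mem hE, Set.indicator_of_mem hA, eta_hi p hl]
    nlinarith
  · rw [Set.indicator_of_notMem hE]
    by_cases hA : τ ∈ A o C y z
    · rw [Set.indicator_of_mem hA]
      rcases le_or_gt (τ s(y, z)) p.lo with hl | hl
      · have := ψ_mono t H (T_mono (le_update_self_iff.2 hl : τ ≤ update τ s(y, z) p.lo) o x)
        rw [eta_lo p hl]
        nlinarith
      · have := ψ_mono t H (T_mono (update_le_self_iff.2 hl.le : update τ s(y, z) p.lo ≤ τ) o x)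
        rw [eta_hi p hl]
        nlinarith
    · rw [Set.indicator_of_notMem hA]
      simp

end MART

open MART in
theorem bMART : St_MART := by
  classical
  intro p hz o x C t H lam I hl hH hC hP hadj
  have nC := ψ_nice t hH o x
  have nx : ∀ i ∈ I, Nice fun τ => xi p o C i.1 i.2 τ := fun i _ => xi_nice p o hC _ _
  have nX := V3.Nice.sum I nx
  have e1 : ∫ τ, ψ t H (T τ o x) * ψ t H (T τ o x) ∂p.P ≤ H ^ 2 := by
    have := integral_mono ((nC.mul nC).int p.P) (integrable_const (H ^ 2)) fun τ => by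
      have := abs_le.1 (ψ_abs t hH (T τ o x))
      show ψ t H (T τ o x) * ψ t H (T τ o x) ≤ H ^ 2
      nlinarith
    simpa using this
  have e2 : ∫ τ, (∑ i ∈ I, xi p o C i.1 i.2 τ) * (∑ i ∈ I, xi p o C i.1 i.2 τ) ∂p.P ≤
      ∑ i ∈ I, p.pr (C i.1) := by
    simp only [sum_mul_sum]
    rw [integral_finsetSum _ fun i hi =>
      (V3.Nice.sum I fun j hj => (nx i hi).mul (nx j hj)).int _]
    refine sum_le_sum fun i hi => ?_
    rw [integral_finsetSum _ fun j hj => ((nx i hi).mul (nx j hj)).int _,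
      sum_eq_single_of_mem i hi fun j hj hne => ?_]
    · exact xi_sq p o hC _ _
    · exact xi_orth p o hC hz hP fun k => hne (Prod.ext k.1 k.2).symm
  have e3 : p.q * p.sl * ∑ i ∈ I,
      p.pr (Ev p o x C i.1 i.2 ∩ {τ | t - H + p.sl ≤ T τ o x ∧ T τ o x ≤ t}) ≤
      ∫ τ, ψ t H (T τ o x) * ∑ i ∈ I, xi p o C i.1 i.2 τ ∂p.P := by
    simp only [mul_sum]
    rw [integral_finsetSum _ fun i hi => (nC.mul (nx i hi)).int _]
    exact sum_le_sum fun i hi => MART.cov p o hz hC hP x t hH (hadj i hi)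
  have j1 := ((nC.mul nC).int p.P).const_mul (lam / 2)
  have j2 := ((nX.mul nX).int p.P).const_mul (1 / (2 * lam))
  have e4 := integral_mono ((nC.mul nX).int p.P) (j1.add j2) fun τ => by
    show ψ t H (T τ o x) * _ ≤ lam / 2 * (ψ t H (T τ o x) * ψ t H (T τ o x)) +
      1 / (2 * lam) * (_ * _)
    generalize ψ t H (T τ o x) = u
    generalize ∑ i ∈ I, xi p o C i.1 i.2 τ = v
    have : lam / 2 * (u * u) + 1 / (2 * lam) * (v * v) - u * v = (lam * u - v) ^ 2 / (2 * lam) := by
      field_simp; ring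
    have h2 : 0 ≤ (lam * u - v) ^ 2 / (2 * lam) := by positivity
    linarith
  simp only [Pi.add_apply] at e4
  rw [integral_add j1 j2, integral_const_mul, integral_const_mul] at e4
  have e5 := mul_le_mul_of_nonneg_left e1 (by positivity : 0 ≤ lam / 2)
  have e6 := mul_le_mul_of_nonneg_left e2 (by positivity : 0 ≤ 1 / (2 * lam))
  linarith

end Pool.Agent.Lib.T3X
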