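import Pool.Agent.Lib.T3X.Blue

/-! Basic kit. -/

namespace Pool.Agent.Lib.T3X

open MeasureTheory ProbabilityTheory Filter Topology Function Finset SimpleGraph Pool.Agent.Lib.V3
open Pool.Agent.Lib.V5
open scoped NNReal ENNReal

lemma exists_lt {τ : Cfg} {u v : V} {c : ℝ} (h : T τ u v < c) :
    ∃ q : G.Walk u v, q.IsPath ∧ SW τ q.edges < c := by
  obtain ⟨q, hq⟩ := exists_lt_of_ciInf_lt h
  exact ⟨q.bypass, q.bypass_isPath, (SW_sublist τ q.edges_bypass_sublist_edges).trans_lt hq⟩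

lemma meas_lt (u v : V) (c : ℝ) : MeasurableSet {τ | T τ u v < c} :=
  measurableSet_lt (T_meas u v) measurable_const

lemma lower_lt (u v : V) (c : ℝ) : IsLowerSet {τ | T τ u v < c} :=
  fun _ _ h h' => (T_mono h u v).trans_lt h'

lemma win_meas (o x : V) (c t : ℝ) : MeasurableSet {τ | c ≤ T τ o x ∧ T τ o x ≤ t} :=
  (measurableSet_le measurable_const (T_meas o x)).inter
    (measurableSet_le (T_meas o x) measurable_const)

lemma Ev_meas (p : Sys) (o x : V) {C : V → Set Cfg} (hC : ∀ y, MeasurableSet (C y)) (y z : V) :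
    MeasurableSet (Ev p o x C y z) :=
  (measurableSet_le (((T_meas o y).add (meas_w _)).add (T_meas z x))
    ((T_meas o x).add_const _)).inter
    ((measurableSet_lt measurable_const (measurable_pi_apply _)).inter (hC y))

lemma mem_Dz {Z : Finset V} {y z : V} : (y, z) ∈ Dz Z ↔ y ∈ Z ∧ G.Adj y z := by
  simp only [Dz, mem_biUnion, mem_image, Prod.mk.injEq, mem_nb]
  constructor
  · rintro ⟨y', h1, z', h3, rfl, rfl⟩
    exact ⟨h1, h3⟩
  · rintro ⟨h1, h3⟩
    exact ⟨y, h1, z, h3, rfl, rfl⟩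

lemma sum_Dz (Z : Finset V) {f : V → ℝ} (hf : ∀ y, 0 ≤ f y) :
    ∑ i ∈ Dz Z, f i.1 ≤ 6 * ∑ y ∈ Z, f y := by
  classical
  rw [← sum_fiberwise_of_maps_to (s := Dz Z) (t := Z) (g := Prod.fst)
    fun i hi => (mem_Dz.1 hi).1, mul_sum]
  refine sum_le_sum fun y _ => ?_
  rw [sum_congr rfl fun i hi => congrArg f (mem_filter.1 hi).2, sum_const, nsmul_eq_mul]
  refine mul_le_mul_of_nonneg_right ?_ (hf y)
  have : ((Dz Z).filter fun i => i.1 = y).card ≤ (nb y).card :=
    card_le_card_of_injOn Prod.snd (fun i hi => by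
      have h := mem_filter.1 (mem_coe.1 hi)
      exact mem_coe.2 (mem_nb.2 (h.2 ▸ (mem_Dz.1 h.1).2))) fun i hi j hj h =>
      Prod.ext ((mem_filter.1 (mem_coe.1 hi)).2.trans (mem_filter.1 (mem_coe.1 hj)).2.symm) h
  exact_mod_cast this.trans (card_nb y)

lemma card_Dz (Z : Finset V) : ((Dz Z).card : ℝ) ≤ 6 * Z.card := by
  simpa using sum_Dz Z (f := fun _ => 1) fun _ => zero_le_one

lemma abs_le_n1 (z : V) (i : Fin 3) : |(z i : ℝ)| ≤ n1 z := by
  have b0 := abs_nonneg (z 0 : ℝ)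
  have b1 := abs_nonneg (z 1 : ℝ)
  have b2 := abs_nonneg (z 2 : ℝ)
  unfold n1
  fin_cases i
  · show |(z 0 : ℝ)| ≤ _; linarith
  · show |(z 1 : ℝ)| ≤ _; linarith
  · show |(z 2 : ℝ)| ≤ _; linarith

lemma mem_bl {c y : V} {R : ℕ} : y ∈ bl c R ↔ n1 (y - c) ≤ R := by
  unfold bl
  rw [mem_filter, Fintype.mem_piFinset]
  refine ⟨fun h => h.2, fun h => ⟨fun i => ?_, h⟩⟩
  have h1 : |(((y - c) i : ℤ) : ℝ)| ≤ R := (abs_le_n1 _ i).trans h
  have h2 : |(y - c) i| ≤ (R : ℤ) := by exact_mod_cast h1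
  rw [Pi.sub_apply, abs_le] at h2
  exact mem_Icc.2 ⟨by omega, by omega⟩

lemma card_bl (c : V) (R : ℕ) : (bl c R).card ≤ (2 * R + 1) ^ 3 := by
  unfold bl
  refine (card_filter_le _ _).trans (le_of_eq ?_)
  have : ∀ i, (Icc (c i - R) (c i + R)).card = 2 * R + 1 := fun i => by
    rw [Int.card_Icc]; omega
  rw [Fintype.card_piFinset, Fin.prod_univ_three, this, this, this]
  ring

/-- sites near a given site are few -/
lemma card_near (S : Finset V) (c : V) {t : ℝ} (ht : 0 ≤ t) (h : ∀ w ∈ S, n1 (w - c) ≤ t) :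
    (S.card : ℝ) ≤ (2 * t + 1) ^ 3 := by
  have h1 : S ⊆ bl c ⌊t⌋₊ := fun w hw => mem_bl.2 (by
    rw [n1_nat]
    exact_mod_cast Nat.le_floor (n1_nat _ ▸ h w hw))
  have h2 : (S.card : ℝ) ≤ (2 * (⌊t⌋₊ : ℝ) + 1) ^ 3 := by
    exact_mod_cast (card_le_card h1).trans (card_bl c _)
  exact h2.trans (pow_le_pow_left₀ (by positivity) (by linarith [Nat.floor_le ht]) 3)

lemma near_mono {u u' : V} {t t' : ℝ} (h : n1 (u - u') + t ≤ t') : near u t ⊆ near u' t' :=
  fun _ he z hz => by linarith [he z hz, n1_tri u' u z]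

lemma near_disjoint {u u' : V} {t t' : ℝ} (h : t + t' < n1 (u - u')) :
    Disjoint (near u t) (near u' t') := by
  refine Set.disjoint_left.2 fun e he he' => ?_
  induction e using Sym2.ind with
  | h x y =>
    have h1 := he x (Sym2.mem_mk_left x y)
    have h2 := he' x (Sym2.mem_mk_left x y)
    have h3 := n1_tri u' x u
    rw [n1_sub_comm u x] at h3
    linarith

/-- sites of a lattice path move by at most one per step -/
lemma Pth.dist {n : ℕ} {u : ℕ → V} (h : Pth n u) {i i' : ℕ} (hi : i ≤ i') (hn : i' ≤ n) :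
    n1 (u i' - u i) ≤ (i' - i : ℕ) := by
  induction i', hi using Nat.le_induction with
  | base => simp [n1]
  | succ k hk ih =>
    have h1 := n1_tri (u i) (u k) (u (k + 1))
    rw [n1_adj (h.1 k (by omega))] at h1
    have h2 := ih (by omega)
    rw [show k + 1 - i = k - i + 1 by omega]
    push_cast
    linarith

/-- a walk along a lattice path -/
lemma Pth.walk {n : ℕ} {u : ℕ → V} (h : Pth n u) (τ : Cfg) {i i' : ℕ} (hi : i ≤ i') (hn : i' ≤ n) :
    ∃ q : G.Walk (u i) (u i'), SW τ q.edges = ∑ j ∈ Ico i i', (τ s(u j, u (j + 1)) : ℝ) ∧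
      ∀ w ∈ q.support, ∃ j, i ≤ j ∧ j ≤ i' ∧ w = u j := by
  induction i', hi using Nat.le_induction with
  | base => exact ⟨Walk.nil, by simp, fun w hw => ⟨i, le_rfl, le_rfl, by simpa using hw⟩⟩
  | succ k hk ih =>
    obtain ⟨q, h1, h2⟩ := ih (by omega)
    refine ⟨q.concat (h.1 k (by omega)), ?_, fun w hw => ?_⟩
    · rw [Walk.edges_concat, List.concat_eq_append, SW_append, h1, sum_Ico_succ_top hk]
      simp
    · rw [Walk.support_concat, List.mem_append, List.mem_singleton] at hw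
      rcases hw with hw | hw
      · obtain ⟨j, a, b, c⟩ := h2 w hw
        exact ⟨j, a, by omega, c⟩
      · exact ⟨k + 1, by omega, le_rfl, hw⟩

lemma ae_pos (p : Par) (h0 : p.F {0} = 0) (e : Sym2 V) : ∀ᵐ τ ∂p.P, 0 < τ e := by
  have := (measurePreserving_eval_infinitePi (fun _ : Sym2 V => p.F) e).measure_preimage
    (s := {0}) (measurableSet_singleton _).nullMeasurableSet
  rw [h0] at this
  rw [ae_iff]
  simp only [not_lt, nonpos_iff_eq_zero]
  exact this

theorem bHAR : St_HAR := fun p _ _ hA hB lA lB => SL.H95.lower p.F hA hB lA lB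

end Pool.Agent.Lib.T3X
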