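import Pool.Agent.Lib.V5.Base
import Pool.Agent.Lib.SL.Har95

/-! Definitions and rows: iterated variance bound in dimension three. -/

namespace Pool.Agent.Lib.T3X

open MeasureTheory ProbabilityTheory Filter Topology Finset Pool.Agent.Lib.V3
open Pool.Agent.Lib.V5 (SW T Sys)
open Pool.Agent.Lib.MP_eba68f_pr (lattice passage)
open scoped NNReal ENNReal

/-- a self-avoiding lattice path with `n` steps -/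
def Pth (n : ℕ) (u : ℕ → V) : Prop :=
  (∀ j, j < n → G.Adj (u j) (u (j + 1))) ∧ ∀ i j, i ≤ n → j ≤ n → u i = u j → i = j

/-- some path with `l` steps that starts within distance `R` of `o` has many light edges -/
def Lt (hi : ℝ≥0) (o : V) (R l : ℕ) : Set Cfg :=
  {τ | ∃ u, n1 (u 0 - o) ≤ R ∧ Pth l u ∧
    l ≤ 32 * ((range l).filter fun j => τ s(u j, u (j + 1)) ≤ hi).card}

/-- no atom at zero, and the Peierls bound -/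
def Rare (p : Sys) : Prop := p.F {0} = 0 ∧
  ∀ (o : V) (R l : ℕ), p.pr (Lt p.hi o R l) ≤ (2 * (R : ℝ) + 1) ^ 3 * (1 / 2) ^ l

/-- the same levels and bounds, and at least as much mass below the lower level -/
def Sim (p₀ p : Sys) : Prop :=
  p.lo = p₀.lo ∧ p.hi = p₀.hi ∧ p.c = p₀.c ∧ p.b = p₀.b ∧ p₀.q ≤ p.q

/-- the event is decided when the growth from `o` reaches `y` -/
def Pred (o y : V) (C : Set Cfg) : Prop :=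
  ∀ (y₁ y₂ : V) (τ τ' : Cfg), (∀ e, e ≠ s(y₁, y₂) → τ e = τ' e) → 0 < τ s(y₁, y₂) →
    0 < τ' s(y₁, y₂) → T τ o y ≤ min (T τ o y₁) (T τ o y₂) → τ ∈ C → τ' ∈ C

/-- a marked heavy edge of a nearly optimal walk -/
def Ev (p : Sys) (o x : V) (C : V → Set Cfg) (y z : V) : Set Cfg :=
  {τ | T τ o y + τ s(y, z) + T τ z x ≤ T τ o x + p.sl ∧ p.hi < τ s(y, z) ∧ τ ∈ C y}

/-- directed edges with tail in `Z` -/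
noncomputable def Dz (Z : Finset V) : Finset (V × V) :=
  Z.biUnion fun y => (nb y).image (Prod.mk y)

open Classical in
/-- sites within distance `R` of `c` -/
noncomputable def bl (c : V) (R : ℕ) : Finset V :=
  (Fintype.piFinset fun i => Icc (c i - R) (c i + R)).filter fun y => n1 (y - c) ≤ R

/-- pairs of sites within distance `R` of `c` -/
def near (c : V) (R : ℝ) : Set (Sym2 V) := {e | ∀ z ∈ e, n1 (z - c) ≤ R}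

open Classical in
noncomputable def cnt (p : Sys) (o x : V) (C : V → Set Cfg) (Z : Finset V) (τ : Cfg) : ℕ :=
  ((Dz Z).filter fun i => τ ∈ Ev p o x C i.1 i.2).card

/-- a marked edge behind `z`, seen inside the ball grown from `o` -/
def Mk (p : Sys) (o z : V) (A B : V → ℝ) (α β : V) : Set Cfg :=
  {τ | ∃ q : G.Walk β z, (∀ w ∈ q.support, w ≠ z → T τ o w < T τ o z) ∧ T τ o α < T τ o z ∧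
    p.hi < τ s(α, β) ∧ T τ o α + τ s(α, β) + SW τ q.edges ≤ T τ o z + p.sl ∧
    (SW τ q.edges < A β ∨ T τ o α < B α)}

open Classical in
def Bad (p : Sys) (o z : V) (A B : V → ℝ) (l : ℕ) (a W : ℝ) : Set Cfg :=
  {τ | a ≤ T τ o z ∧ T τ o z ≤ a + W ∧
    l ≤ 16 * ((Dz (bl z (2 * l + 1))).filter fun i => τ ∈ Mk p o z A B i.1 i.2).card}

/-- a piece with `n` steps of a nearly optimal path from `o` to `x` -/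
def Pc (p : Sys) (τ : Cfg) (o x : V) (n : ℕ) (u : ℕ → V) : Prop :=
  Pth n u ∧ ∀ i i', i ≤ i' → i' ≤ n →
    T τ o (u i) + ∑ j ∈ Ico i i', (τ s(u j, u (j + 1)) : ℝ) + T τ (u i') x ≤ T τ o x + p.sl

/-- the geometric input -/
def Geo (p : Sys) (d : Dat) (M : ℕ) (C₀ : ℝ) : Prop :=
  (∀ z : V, z 0 ≤ M → 0 ≤ p.g d z) ∧
    ∀ (W : Finset V) (Λ s : ℝ), 1 ≤ Λ → 0 ≤ s → (∀ z ∈ W, n1 z ≤ Λ ∧ z 0 ≤ M ∧ p.g d z ≤ s) →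
      (W.card : ℝ) ≤ C₀ * Λ ^ 2 * (s + 1)

/-- gain `γ` below the level `β` with probability `φ`, for short pairs in the window -/
def GainL (p : Sys) (d : Dat) (σ ρ Y Γ β γ φ : ℝ) : Prop :=
  ∀ (u v : V) (t : ℝ), ρ ≤ n1 (v - u) → n1 (v - u) ≤ Y → p.g d (v - u) ≤ Γ →
    t ≤ p.h (v - u) + 2 * σ + p.sl → β < p.pr {τ | T τ u v < t} → φ ≤ p.pr {τ | T τ u v < t - γ}

/-- pieces with `n` steps exist inside `Z` off an event of probability at most `ε` -/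
def Prov (p : Sys) (M : ℕ) (o x : V) (t ε : ℝ) (n Λ : ℕ) : Prop :=
  ∃ (Z : Finset V) (E : Set Cfg), p.pr E ≤ ε ∧
    (∀ y ∈ Z, n1 (y - o) ≤ Λ ∧ (y - o) 0 ≤ M ∧ (x - y) 0 ≤ M) ∧
    ∀ τ, τ ∉ E → T τ o x < t → ∃ u, Pc p τ o x n u ∧ ∀ j, j ≤ n → u j ∈ Z

/-- the statement of round `r` -/
def Hk (p : Sys) (d : Dat) (M : ℕ) (σ : ℝ) (k r B : ℕ) : Prop :=
  ∀ (o x : V) (t : ℝ), (2 : ℝ) ^ (12 ^ (r + 1) * k ^ 3) ≤ n1 (x - o) → 2 * n1 (x - o) ≤ M →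
    p.g d (x - o) ≤ (k : ℝ) ^ B → t ≤ p.h (x - o) + 2 * σ + p.sl →
    1 / (k : ℝ) ^ B ≤ p.pr {τ | t - (k : ℝ) ^ B ≤ T τ o x ∧ T τ o x < t} →
    1 / (k : ℝ) ^ (20 * B + 21) ≤ p.pr {τ | T τ o x < t - p.sl / 2 * (k : ℝ) ^ r}

def St_MART : Prop := ∀ (p : Sys), p.F {0} = 0 → ∀ (o x : V) (C : V → Set Cfg) (t H lam : ℝ)
  (I : Finset (V × V)), 0 < lam → 0 ≤ H → (∀ y, MeasurableSet (C y)) → (∀ y, Pred o y (C y)) →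
  (∀ i ∈ I, G.Adj i.1 i.2) →
  p.q * p.sl * ∑ i ∈ I,
      p.pr (Ev p o x C i.1 i.2 ∩ {τ | t - H + p.sl ≤ T τ o x ∧ T τ o x ≤ t}) ≤
    lam / 2 * H ^ 2 + 1 / (2 * lam) * ∑ i ∈ I, p.pr (C i.1)

def St_CNT : Prop := ∀ (p : Sys), p.F {0} = 0 → ∀ (o x : V) (C : V → Set Cfg) (Z : Finset V)
  (t H κ ε : ℝ), 0 < H → 0 < κ → 0 < ε → (∀ y, MeasurableSet (C y)) → (∀ y, Pred o y (C y)) →
  6 * H ^ 2 * ∑ y ∈ Z, p.pr (C y) ≤ (p.q * p.sl * κ * ε) ^ 2 →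
  p.pr {τ | (t - H + p.sl ≤ T τ o x ∧ T τ o x ≤ t) ∧ κ ≤ cnt p o x C Z τ} ≤ ε

def St_QUANT : Prop := ∀ (p : Par) (π η : ℝ), 0 ≤ π → π < 1 → 0 < η → ∃ a : V → V → ℝ, ∀ u v,
  p.pr {τ | T τ u v < a u v} ≤ π ∧ π < p.pr {τ | T τ u v < a u v + η}

def St_COUNT : Prop := ∀ p₀ : Sys, ∃ C₀ : ℝ, 1 ≤ C₀ ∧ ∀ p : Sys, Sim p₀ p →
  ∀ (d : Dat) (M : ℕ), p.Good M d → Geo p d M C₀

def St_TAIL : Prop := ∀ (p : Sys) (d : Dat) (M : ℕ) (C₀ : ℝ), Geo p d M C₀ →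
  ∀ (Z : Finset V) (φ : V → V) (f : V → ℝ) (Λ K β σ : ℝ), 1 ≤ Λ → 1 ≤ K → 0 ≤ β →
    (∀ y ∈ Z, ∀ y' ∈ Z, φ y = φ y' → y = y') → (∀ y ∈ Z, n1 (φ y) ≤ Λ ∧ φ y 0 ≤ M) →
    (∀ y ∈ Z, p.g d (φ y) ≤ K → f y ≤ β) →
    (∀ y ∈ Z, K < p.g d (φ y) → f y ≤ 16 * σ ^ 2 / p.g d (φ y) ^ 2) →
    ∑ y ∈ Z, f y ≤ C₀ * Λ ^ 2 * (2 * K * β + 128 * σ ^ 2 / K)

def St_BADM : Prop := ∀ (p : Sys) (o z : V) (A B : V → ℝ) (l : ℕ) (a W : ℝ),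
  MeasurableSet (Bad p o z A B l a W) ∧ Pred o z (Bad p o z A B l a W)

def St_BADP : Prop := ∀ (p : Sys), p.F {0} = 0 → ∀ (o z : V) (A B : V → ℝ) (l : ℕ) (a W ε : ℝ),
  1 ≤ l → 0 ≤ W → 0 < ε →
  6 * (W + p.sl) ^ 2 * ∑ y ∈ bl z (2 * l + 2), p.pr {τ | T τ z y < A y} ≤
    (p.q * p.sl * (l / 32) * (ε / 2)) ^ 2 →
  6 * (W + p.sl) ^ 2 * ∑ y ∈ bl z (2 * l + 2), p.pr {τ | T τ o y < B y} ≤
    (p.q * p.sl * (l / 32) * (ε / 2)) ^ 2 →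
  p.pr (Bad p o z A B l a W) ≤ ε

def St_PEI : Prop := ∃ p₀ : ℝ, 0 < p₀ ∧ ∀ (p : Par) (hi : ℝ≥0), p.F.real (Set.Iic hi) ≤ p₀ →
  ∀ (o : V) (R l : ℕ), p.pr (Lt hi o R l) ≤ (2 * (R : ℝ) + 1) ^ 3 * (1 / 2) ^ l

def St_PATH : Prop := ∀ (p : Sys) (τ : Cfg) (o x : V) (n : ℕ), (n : ℝ) ≤ n1 (x - o) →
  ∃ u, Pc p τ o x n u ∧ u 0 = o

def St_SLAB : Prop := ∀ (p : Sys) (τ : Cfg) (x : V) (n Λ : ℕ), (n : ℤ) ≤ x 0 →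
  τ ∉ Lt p.hi 0 0 Λ → 2 * (T τ 0 x + p.sl) < p.hi * Λ →
  ∃ u, Pc p τ 0 x n u ∧ ∀ j, j ≤ n → n1 (u j) ≤ Λ ∧ 0 ≤ u j 0 ∧ u j 0 ≤ n

def St_CHAIN : Prop := ∀ (p : Sys) (τ : Cfg) (o x : V) (n l j ρ Λ : ℕ) (u : ℕ → V) (Z : Finset V)
  (a b : V → ℝ) (A B : V → V → ℝ) (Wd : V → Prop) (W : ℝ) (C₁ : V → Set Cfg),
  Pc p τ o x n u → (∀ i, i ≤ n → u i ∈ Z) → (∀ y ∈ Z, n1 (y - o) ≤ Λ) → τ ∉ Lt p.hi o Λ l →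
  (∀ y, τ ∉ C₁ y → a y ≤ T τ o y ∧ (Wd y → τ ∉ Bad p o y (A y) (B y) l (a y) W)) →
  (∀ y ∈ Z, a y + b y ≤ T τ o x + p.sl → Wd y ∧ T τ o x + p.sl - b y ≤ a y + W) →
  160 * j * (cnt p o x C₁ Z τ + cnt p x o (fun y => {τ | T τ x y < b y}) Z τ) ≤ n →
  1 ≤ j → 8 * (2 * ρ + 1) ^ 3 ≤ l → 2 * (2 * l * (j + 1) + 1) ≤ n →
  ∃ (S : Finset ℕ) (c : ℕ → V) (w : ℕ → ℕ → V), n ≤ 4 * S.card ∧
    (∀ i ∈ S, ∀ i' ∈ S, c i = c i' → i = i') ∧ ∀ i ∈ S, n1 (w i 0 - c i) ≤ 2 * l ∧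
      (∀ s, s ≤ j → w i s ∈ Z ∧ Wd (w i s)) ∧
      (∀ s, s < j → (ρ : ℝ) ≤ n1 (w i s - w i (s + 1)) ∧ n1 (w i s - w i (s + 1)) ≤ 2 * l ∧
        A (w i s) (w i (s + 1)) + B (w i s) (w i (s + 1)) ≤ a (w i s) + W + p.sl) ∧
      a (w i j) + ∑ s ∈ range j, A (w i s) (w i (s + 1)) + b (w i 0) ≤ T τ o x + p.sl

def St_HAR : Prop := ∀ (p : Par) (A B : Set Cfg), MeasurableSet A → MeasurableSet B →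
  IsLowerSet A → IsLowerSet B → p.pr A * p.pr B ≤ p.pr (A ∩ B)

def St_HCH : Prop := ∀ (p : Par) (w : ℕ → V) (t : ℕ → ℝ) (φ : ℝ) (j : ℕ), 0 ≤ φ → 1 ≤ j →
  (∀ s, s < j → φ ≤ p.pr {τ | T τ (w (s + 1)) (w s) < t s}) →
  φ ^ j ≤ p.pr {τ | T τ (w 0) (w j) < ∑ s ∈ range j, t s}

def St_LOC : Prop := ∀ (p : Sys), Rare p → ∀ (z y : V) (c : ℝ) (L : ℕ), 2 * c ≤ p.hi * L →
  ∃ Φ : Set Cfg, MeasurableSet Φ ∧ IsLowerSet Φ ∧ Dep (near z L) Φ ∧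
    (∀ τ ∈ Φ, T τ z y < c) ∧ p.pr {τ | T τ z y < c} - (1 / 2) ^ L ≤ p.pr Φ

def St_PLANT : Prop := ∀ (p : Par) (S : Finset ℕ) (c : ℕ → V) (Φ W : ℕ → Set Cfg) (B : Set Cfg)
  (R β φ : ℝ), 0 ≤ R → 0 < φ → 0 < β → MeasurableSet B →
  (∀ i ∈ S, ∀ i' ∈ S, c i = c i' → i = i') →
  (∀ i ∈ S, MeasurableSet (Φ i) ∧ IsLowerSet (Φ i) ∧ MeasurableSet (W i) ∧ IsLowerSet (W i) ∧
    Dep (near (c i) R) (Φ i) ∧ φ ≤ p.pr (Φ i) ∧ β ≤ p.pr (W i) ∧ Φ i ∩ W i ⊆ B) →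
  4 * (4 * R + 1) ^ 3 ≤ β ^ 2 * S.card * φ → β / 2 ≤ p.pr B

def St_STEP : Prop := ∀ (p : Sys), Rare p → ∀ (d : Dat) (M : ℕ) (C₀ σ X : ℝ), Geo p d M C₀ →
  1 ≤ σ → p.VarM σ X → ∀ (o x : V) (t π Γ H γ γ' K K' α α' φ : ℝ) (n Λ l j ρ R : ℕ),
  0 < π → Prov p M o x t (π / 8) n Λ → π ≤ p.pr {τ | t - H ≤ T τ o x ∧ T τ o x < t} →
  p.g d (x - o) ≤ Γ → t ≤ p.h (x - o) + 2 * σ + p.sl → 0 ≤ H → 0 ≤ γ → 0 ≤ γ' → 1 ≤ K → 1 ≤ K' →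
  0 < α → α ≤ 1 / 2 → 0 < α' → α' ≤ 1 / 2 → 0 < φ → 1 ≤ Λ →
  n1 (x - o) + Λ + 2 * l + 2 ≤ X → 2 * l + 2 ≤ M →
  GainL p d σ ρ (2 * l) K' α' γ' φ →
  2 * (Γ + 2 * σ + 2 * p.sl) < K →
  6 * (H + p.sl) ^ 2 * (C₀ * (Λ : ℝ) ^ 2 * (2 * K * (2 * α) + 128 * σ ^ 2 / K)) ≤
    (p.q * p.sl * (n / (320 * j)) * (π / 8)) ^ 2 →
  2 * (K + 2 * σ + γ + 3 * p.sl) < K' →
  6 * (γ + 3 * p.sl) ^ 2 * (C₀ * (2 * (l : ℝ) + 2) ^ 2 * (2 * K' * α' + 128 * σ ^ 2 / K')) ≤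
    (p.q * p.sl * (l / 32) * (α / 2)) ^ 2 →
  (2 * (Λ : ℝ) + 1) ^ 3 * (1 / 2) ^ l ≤ π / 8 →
  1 ≤ j → 8 * (2 * ρ + 1) ^ 3 ≤ l → 2 * (2 * l * (j + 1) + 1) ≤ n →
  2 * (j * (2 * p.b * l + 2 * σ + p.sl)) ≤ p.hi * R → (1 / 2) ^ R ≤ φ ^ j / 2 →
  4 * (4 * ((R : ℝ) + 2 * l) + 1) ^ 3 ≤ α ^ 4 * (n / 4) * (φ ^ j / 2) →
  γ + 3 * p.sl / 2 ≤ j * (γ' - p.sl / 4) →
  α ^ 2 / 2 ≤ p.pr {τ | T τ o x < t - γ}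

def St_BASE : Prop := ∀ (p : Sys), Rare p → ∀ (o x : V) (t π : ℝ) (m : ℕ), 1 ≤ m →
  (m : ℝ) ≤ n1 (x - o) → π ≤ p.pr {τ | T τ o x < t} → (1 / 2) ^ m ≤ π / 2 →
  p.q * π / (12 * (2 * (m : ℝ) + 1) ^ 3) ≤ p.pr {τ | T τ o x < t - p.sl}

/-- one round with the parameters put in -/
def St_ISTEP : Prop := ∀ (p₀ : Sys) (C₀ : ℝ) (D : ℕ), 1 ≤ C₀ → 1 ≤ D → ∃ k₀ : ℕ,
  ∀ p : Sys, Sim p₀ p → Rare p → ∀ (d : Dat) (M : ℕ) (σ X : ℝ) (k r B : ℕ), k₀ ≤ k → Geo p d M C₀ → 1 ≤ σ → σ ≤ (k : ℝ) ^ B →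
  p.VarM σ X → 16 * 50 ^ (r + 1) * (B + r + 2) ≤ k → Hk p d M σ k r (42 * B + 4 * r + 51) →
  ∀ (o x : V) (t : ℝ) (n Λ : ℕ), n = 2 ^ (12 ^ (r + 2) * k ^ 3) → n ≤ Λ → Λ ≤ D * n → n ≤ M →
    n1 (x - o) + Λ + n ≤ X → Prov p M o x t (1 / (k : ℝ) ^ B / 8) n Λ →
    p.g d (x - o) ≤ (k : ℝ) ^ B → t ≤ p.h (x - o) + 2 * σ + p.sl →
    1 / (k : ℝ) ^ B ≤ p.pr {τ | t - (k : ℝ) ^ B ≤ T τ o x ∧ T τ o x < t} →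
    1 / (k : ℝ) ^ (20 * B + 21) ≤ p.pr {τ | T τ o x < t - p.sl / 2 * (k : ℝ) ^ (r + 1)}

def St_IND : Prop := ∀ (p₀ : Sys) (C₀ : ℝ), 1 ≤ C₀ → ∃ k₀ : ℕ,
  ∀ p : Sys, Sim p₀ p → Rare p → ∀ (d : Dat) (M : ℕ) (σ : ℝ) (k r B : ℕ), k₀ ≤ k → Geo p d M C₀ → 1 ≤ σ → σ ≤ (k : ℝ) ^ B →
  p.VarM σ (2 * M) → 16 * 50 ^ r * (B + r + 1) ≤ k → Hk p d M σ k r B

def St_TOP : Prop := ∀ p₀ : Sys, ∃ (k₀ : ℕ) (Γ : ℝ), 0 ≤ Γ ∧ ∀ p : Sys, Sim p₀ p → Rare p →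
  ∀ k s : ℕ, k₀ ≤ k →
  16 * 50 ^ (11 * s + 22) * (12 * s + 24) ≤ k →
  ¬p.VarM ((k : ℝ) ^ s) (Γ * 2 ^ (12 ^ (11 * s + 23) * k ^ 3))

def St_RATE : Prop := ∀ p₀ : Sys, ∃ c : ℝ, 0 < c ∧ ∀ᶠ N : ℕ in atTop, ∀ p : Sys, Sim p₀ p →
  Rare p → ∃ v : V, n1 v ≤ N ∧ Real.exp (c * Real.log (Real.log N) ^ 2) ≤ p.Vr v

def St_FIN : Prop :=
  ∀ a m : ℝ≥0, 0 < a → ∃ p₀ : ℝ≥0∞, 0 < p₀ ∧
    ∀ (F : Measure ℝ≥0) [IsProbabilityMeasure F] (r : ℝ≥0),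
      MemLp (fun t : ℝ≥0 => (t : ℝ)) 2 F → ∫ t, (t : ℝ) ∂F ≤ m → F (Set.Iio a) ≤ 1 / 1000 →
      F (Set.Iio r) = 0 → (∀ s, r < s → 0 < F (Set.Iic s)) → F {r} < p₀ →
      ∃ c : ℝ, 0 < c ∧ ∀ᶠ N : ℕ in atTop, ∃ v : Fin 3 → ℤ, (∀ i, |v i| ≤ N) ∧
        ENNReal.ofReal (Real.exp (c * Real.log (Real.log N) ^ 2)) ≤
          evariance (fun τ => passage τ 0 v)
            (Measure.infinitePi fun _ : (lattice 3).edgeSet => F)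

end Pool.Agent.Lib.T3X
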